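import Pool.Agent.EDG.Stmts

set_option autoImplicit false

namespace Pool.Agent.Helper92_EDG

open Polynomial Finset Pool.Agent.EDG

theorem two_sum (s : ℕ) : 2 * ∑ l ∈ range s, (s - l) = s * (s + 1) := by
  induction s with
  | zero => simp
  | succ s ih =>
    rw [Finset.sum_range_succ']
    have h1 : ∑ l ∈ range s, (s + 1 - (l + 1)) = ∑ l ∈ range s, (s - l) :=
      Finset.sum_congr rfl fun l _ => by omega
    rw [h1, mul_add, ih]
    simp only [Nat.sub_zero]
    ring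

theorem pig : PigStmt := by
  classical
  intro m E B s D hmB hlt v hv
  obtain ⟨emb, hemb⟩ : ∃ emb : ((j : Fin m) → (e : Fin E) → Fin (2 ^ (B - (j : ℕ)))) →
      ℕ → ℕ → ℤ, ∀ t j e, emb t j e = if h : j < m ∧ e < E then
        (((t ⟨j, h.1⟩ ⟨e, h.2⟩ : Fin (2 ^ (B - j))) : ℕ) : ℤ) else 0 := ⟨_, fun _ _ _ => rfl⟩
  obtain ⟨φ, hφ⟩ : ∃ φ : ((j : Fin m) → (e : Fin E) → Fin (2 ^ (B - (j : ℕ)))) →
      ((l : Fin s) → (k : Fin D) → ZMod (2 ^ (s - (l : ℕ)))),
      ∀ t l k, φ t l k = (((v (emb t) l).coeff k : ℤ) : ZMod (2 ^ (s - (l : ℕ)))) :=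
    ⟨_, fun _ _ _ => rfl⟩
  have hcard : Fintype.card ((l : Fin s) → (k : Fin D) → ZMod (2 ^ (s - (l : ℕ))))
      < Fintype.card ((j : Fin m) → (e : Fin E) → Fin (2 ^ (B - (j : ℕ)))) := by
    have h1 : Fintype.card ((l : Fin s) → (k : Fin D) → ZMod (2 ^ (s - (l : ℕ))))
        = 2 ^ (D * (s * (s + 1) / 2)) := by
      rw [Fintype.card_pi]
      simp only [Fintype.card_pi, ZMod.card, Finset.prod_const, Finset.card_univ,
        Fintype.card_fin]
      simp only [← pow_mul]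
      rw [Finset.prod_pow_eq_pow_sum, ← Finset.sum_mul,
        Fin.sum_univ_eq_sum_range (fun l => s - l) s, ← two_sum s]
      congr 1
      rw [Nat.mul_div_cancel_left _ (by norm_num : 0 < 2), mul_comm]
    have h2 : Fintype.card ((j : Fin m) → (e : Fin E) → Fin (2 ^ (B - (j : ℕ))))
        = 2 ^ (E * ∑ j ∈ range m, (B - j)) := by
      rw [Fintype.card_pi]
      simp only [Fintype.card_pi, Finset.prod_const, Finset.card_univ, Fintype.card_fin]
      simp only [← pow_mul]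
      rw [Finset.prod_pow_eq_pow_sum, ← Finset.sum_mul,
        Fin.sum_univ_eq_sum_range (fun j => B - j) m, mul_comm]
    rw [h1, h2]
    exact Nat.pow_lt_pow_right (by norm_num) hlt
  obtain ⟨t, t', hne, heq⟩ := Fintype.exists_ne_map_eq_of_card_lt φ hcard
  refine ⟨emb t - emb t', ?_, ?_, ?_⟩
  · by_contra hcon
    apply hne
    funext j e
    by_contra hje
    apply hcon
    refine ⟨j, j.2, e, e.2, ?_⟩
    rw [Pi.sub_apply, Pi.sub_apply, hemb, hemb, dif_pos ⟨j.2, e.2⟩, dif_pos ⟨j.2, e.2⟩]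
    intro h0
    apply hje
    have h1 : ((t j e : Fin (2 ^ (B - (j : ℕ)))) : ℕ) = ((t' j e : Fin _) : ℕ) := by
      have h2 := sub_eq_zero.mp h0
      exact_mod_cast h2
    exact Fin.ext h1
  · intro j e
    rw [Pi.sub_apply, Pi.sub_apply, hemb, hemb]
    by_cases hje : j < m ∧ e < E
    · rw [dif_pos hje, dif_pos hje]
      have h1 := (t ⟨j, hje.1⟩ ⟨e, hje.2⟩).isLt
      have h2 := (t' ⟨j, hje.1⟩ ⟨e, hje.2⟩).isLt
      obtain ⟨x, hx⟩ : ∃ x : ℕ, x = ((t ⟨j, hje.1⟩ ⟨e, hje.2⟩ : Fin (2 ^ (B - j))) : ℕ) :=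
        ⟨_, rfl⟩
      obtain ⟨y, hy⟩ : ∃ y : ℕ, y = ((t' ⟨j, hje.1⟩ ⟨e, hje.2⟩ : Fin (2 ^ (B - j))) : ℕ) :=
        ⟨_, rfl⟩
      rw [← hx, ← hy]
      have h1' : (x : ℤ) < 2 ^ (B - j) := by
        rw [← hx] at h1
        exact_mod_cast h1
      have h2' : (y : ℤ) < 2 ^ (B - j) := by
        rw [← hy] at h2
        exact_mod_cast h2
      have h3 : |(x : ℤ) - y| < 2 ^ (B - j) := by
        rw [abs_lt]
        constructor
        · have : (0 : ℤ) ≤ x := Int.natCast_nonneg x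
          linarith
        · have : (0 : ℤ) ≤ y := Int.natCast_nonneg y
          linarith
      calc (2 : ℤ) ^ j * |(x : ℤ) - y| < 2 ^ j * 2 ^ (B - j) :=
            mul_lt_mul_of_pos_left h3 (by positivity)
        _ = 2 ^ B := by
            rw [← pow_add]
            congr 1
            omega
    · rw [dif_neg hje, dif_neg hje]
      simp
  · intro l hl k hk
    have h1 := congrFun (congrFun heq ⟨l, hl⟩) ⟨k, hk⟩
    rw [hφ, hφ] at h1
    have h2 : (v (emb t - emb t') l).coeff k = (v (emb t) l).coeff k - (v (emb t') l).coeff k := by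
      rw [hv, Pi.sub_apply, coeff_sub]
    rw [h2, ← ZMod.intCast_zmod_eq_zero_iff_dvd, Int.cast_sub]
    exact sub_eq_zero.mpr h1

end Pool.Agent.Helper92_EDG
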